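import Pool.Agent.H45.SQ.Targets2

namespace Pool.Agent.H62.SQ1

open Finset Pool.Agent.H45.SQ
open scoped BigOperators ComplexConjugate

theorem cj_even {k : ℕ} (h : Even k) (z : ℂ) : cj k z = z := by simp [cj, h]
theorem cj_odd {k : ℕ} (h : ¬ Even k) (z : ℂ) : cj k z = conj z := by simp [cj, h]

/-- the average over the two last rows is a square -/
theorem cpos_inner {G : Type} [AddCommGroup G] [Fintype G] [DecidableEq G] [Module (ZMod 2) G]
    (S : Finset G) (φ : G → G → ℂ) (a b : Fin 2 → G) :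
    𝔼 r ∈ Fintype.piFinset (fun _ : Fin 2 => S),
      ∏ i : Fin 2, ∏ j : Fin 2, ∏ k : Fin 2,
        cj (i.val + j.val + k.val) (φ (a i + b j) (b j + r k)) =
    ((‖𝔼 x ∈ S, φ (a 0 + b 0) (b 0 + x) * conj (φ (a 0 + b 1) (b 1 + x)) *
      conj (φ (a 1 + b 0) (b 0 + x)) * φ (a 1 + b 1) (b 1 + x)‖ ^ 2 : ℝ) : ℂ) := by
  set g : G → ℂ := fun x => φ (a 0 + b 0) (b 0 + x) * conj (φ (a 0 + b 1) (b 1 + x)) *
      conj (φ (a 1 + b 0) (b 0 + x)) * φ (a 1 + b 1) (b 1 + x) with hg
  have h1 : ∀ r : Fin 2 → G, ∏ i : Fin 2, ∏ j : Fin 2, ∏ k : Fin 2,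
      cj (i.val + j.val + k.val) (φ (a i + b j) (b j + r k)) = g (r 0) * conj (g (r 1)) := by
    intro r
    simp only [Fin.prod_univ_two, Fin.val_zero, Fin.val_one]
    simp only [Nat.add_zero, Nat.zero_add]
    rw [cj_even (by decide : Even 0), cj_odd (by decide : ¬ Even 1), cj_odd (by decide : ¬ Even 1),
      cj_even (by decide : Even (1 + 1)), cj_odd (by decide : ¬ Even 1),
      cj_even (by decide : Even (1 + 1)), cj_even (by decide : Even (1 + 1)),
      cj_odd (by decide : ¬ Even (1 + 1 + 1))]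
    simp only [hg, map_mul, Complex.conj_conj]
    ring
  rw [Finset.expect_congr rfl fun r _ => h1 r]
  have h2 : 𝔼 r ∈ Fintype.piFinset (fun _ : Fin 2 => S), g (r 0) * conj (g (r 1)) =
      (𝔼 x ∈ S, g x) * conj (𝔼 x ∈ S, g x) := by
    have h3 : (Fintype.piFinset (fun _ : Fin 2 => S)).card = S.card * S.card := by
      rw [Fintype.card_piFinset]; simp [sq]
    have h4 : ∑ r ∈ Fintype.piFinset (fun _ : Fin 2 => S), g (r 0) * conj (g (r 1)) =
        (∑ x ∈ S, g x) * ∑ x ∈ S, conj (g x) := by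
      rw [Finset.sum_mul_sum, ← Finset.sum_product']
      refine Finset.sum_nbij' (fun r => (r 0, r 1)) (fun z => ![z.1, z.2]) ?_ ?_ ?_ ?_ ?_
      · intro r hr
        rw [Fintype.mem_piFinset] at hr
        rw [Finset.mem_product]
        exact ⟨hr 0, hr 1⟩
      · intro z hz
        rw [Finset.mem_product] at hz
        rw [Fintype.mem_piFinset]
        intro i
        fin_cases i
        · exact hz.1
        · exact hz.2
      · intro r _
        ext i
        fin_cases i <;> rfl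
      · intro z _
        rfl
      · intro r _
        rfl
    rw [Finset.expect_eq_sum_div_card, h4, h3, Finset.expect_eq_sum_div_card, map_div₀, map_sum]
    push_cast
    rw [Complex.conj_natCast, div_mul_div_comm]
  rw [h2, Complex.mul_conj, Complex.normSq_eq_norm_sq]

theorem cpos : T_CPOS := by
  intro G _ _ _ _ H φ
  have h1 : OctH H φ = ((𝔼 a ∈ Fintype.piFinset (fun _ : Fin 2 => hs H),
      𝔼 b ∈ Fintype.piFinset (fun _ : Fin 2 => hs H),
      ‖𝔼 x ∈ hs H, φ (a 0 + b 0) (b 0 + x) * conj (φ (a 0 + b 1) (b 1 + x)) *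
      conj (φ (a 1 + b 0) (b 0 + x)) * φ (a 1 + b 1) (b 1 + x)‖ ^ 2 : ℝ) : ℂ) := by
    rw [OctH]
    rw [Complex.ofReal_expect]
    refine Finset.expect_congr rfl fun a _ => ?_
    rw [Complex.ofReal_expect]
    exact Finset.expect_congr rfl fun b _ => cpos_inner (hs H) φ a b
  rw [h1, Complex.ofReal_re, Complex.ofReal_im]
  refine ⟨?_, rfl⟩
  exact Finset.expect_nonneg fun a _ => Finset.expect_nonneg fun b _ => by positivity

end Pool.Agent.H62.SQ1
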