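import Pool.Agent.H45.SQ.Targets1

namespace Pool.Agent.H62.SQ1

open Finset Pool.Agent.H45.SQ
open scoped BigOperators ComplexOrder

theorem cubic_real {ι : Type} [Fintype ι] (l : ι → ℝ) (h0 : ∀ i, 0 ≤ l i) (h1 : ∑ i, l i ≤ 1) :
    (∑ i, l i ^ 2) ^ 2 ≤ ∑ i, l i ^ 3 := by
  have h2 : (∑ i, l i ^ 2) ^ 2 ≤ (∑ i, l i) * ∑ i, l i ^ 3 := by
    have h3 := Finset.sum_mul_sq_le_sq_mul_sq Finset.univ (fun i => Real.sqrt (l i))
      (fun i => l i * Real.sqrt (l i))
    have e1 : ∀ i, Real.sqrt (l i) * (l i * Real.sqrt (l i)) = l i ^ 2 := by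
      intro i
      have := Real.mul_self_sqrt (h0 i)
      calc Real.sqrt (l i) * (l i * Real.sqrt (l i)) =
          l i * (Real.sqrt (l i) * Real.sqrt (l i)) := by ring
        _ = l i ^ 2 := by rw [this]; ring
    have e2 : ∀ i, Real.sqrt (l i) ^ 2 = l i := fun i => Real.sq_sqrt (h0 i)
    have e3 : ∀ i, (l i * Real.sqrt (l i)) ^ 2 = l i ^ 3 := by
      intro i
      rw [mul_pow, Real.sq_sqrt (h0 i)]; ring
    simp_rw [e1, e2, e3] at h3
    exact h3
  have h4 : 0 ≤ ∑ i, l i ^ 3 := Finset.sum_nonneg fun i _ => pow_nonneg (h0 i) 3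
  nlinarith

theorem cubic : T_CUBIC := by
  intro G _ _ A hA htr
  have hH := hA.isHermitian
  set l : G → ℝ := hH.eigenvalues with hl
  have hl0 : ∀ i, 0 ≤ l i := hA.eigenvalues_nonneg
  set U : Matrix G G ℂ := (hH.eigenvectorUnitary : Matrix G G ℂ) with hU
  have hUU : star U * U = 1 := Unitary.coe_star_mul_self hH.eigenvectorUnitary
  have hUU' : U * star U = 1 := Unitary.coe_mul_star_self hH.eigenvectorUnitary
  set Dm : Matrix G G ℂ := Matrix.diagonal (fun i => ((l i : ℝ) : ℂ)) with hD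
  have hsp : A = U * Dm * star U := hH.spectral_theorem
  have hAA : A * A = U * (Dm * Dm) * star U := by
    rw [hsp]
    calc U * Dm * star U * (U * Dm * star U) = U * Dm * (star U * U) * Dm * star U := by
          simp only [Matrix.mul_assoc]
      _ = U * (Dm * Dm) * star U := by rw [hUU]; simp only [Matrix.mul_assoc, Matrix.mul_one]
          
  have hAAA : A * A * A = U * (Dm * Dm * Dm) * star U := by
    rw [hAA]
    conv_lhs => rw [hsp]
    calc U * (Dm * Dm) * star U * (U * Dm * star U) =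
          U * (Dm * Dm) * (star U * U) * Dm * star U := by simp only [Matrix.mul_assoc]
      _ = U * (Dm * Dm * Dm) * star U := by rw [hUU]; simp only [Matrix.mul_assoc, Matrix.mul_one]
  have htrc : ∀ X : Matrix G G ℂ, (U * X * star U).trace = X.trace := by
    intro X
    rw [Matrix.mul_assoc, Matrix.trace_mul_comm, Matrix.mul_assoc, hUU, Matrix.mul_one]
  have t1 : A.trace.re = ∑ i, l i := by
    rw [hsp, htrc, hD, Matrix.trace_diagonal, Complex.re_sum]
    simp
  have t2 : (A * A).trace.re = ∑ i, l i ^ 2 := by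
    rw [hAA, htrc, hD, Matrix.diagonal_mul_diagonal, Matrix.trace_diagonal, Complex.re_sum]
    refine Finset.sum_congr rfl fun i _ => ?_
    rw [← Complex.ofReal_mul, Complex.ofReal_re]; ring
  have t3 : (A * A * A).trace.re = ∑ i, l i ^ 3 := by
    rw [hAAA, htrc, hD, Matrix.diagonal_mul_diagonal, Matrix.diagonal_mul_diagonal,
      Matrix.trace_diagonal, Complex.re_sum]
    refine Finset.sum_congr rfl fun i _ => ?_
    rw [← Complex.ofReal_mul, ← Complex.ofReal_mul, Complex.ofReal_re]; ring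
  rw [t2, t3]
  exact cubic_real l hl0 (by rw [← t1]; exact htr)

end Pool.Agent.H62.SQ1
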