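import Pool.Agent.H45.SQ.Targets2

namespace Pool.Agent.H62.SQ1

open Finset Pool.Agent.H45.SQ
open scoped BigOperators ComplexConjugate

section

variable {G : Type} [AddCommGroup G] [Fintype G] [Module (ZMod 2) G]

theorem mem_hs (H : Submodule (ZMod 2) G) (x : G) : x ∈ hs H ↔ x ∈ H := by
  simp [hs]

theorem zc (a : ZMod 2) : a = 0 ∨ a = 1 := by
  revert a; decide

/-- splitting the sum over `H` in the sums over two cosets of `H ⊓ ker l` -/
theorem split_sum (H : Submodule (ZMod 2) G) (l : Module.Dual (ZMod 2) G) (h₀ : G) (hh : h₀ ∈ H)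
    (hl : l h₀ = 1) (F : G → ℂ) :
    ∑ h ∈ hs H, F h = ∑ h ∈ hs (H ⊓ LinearMap.ker l), F h +
      ∑ h ∈ hs (H ⊓ LinearMap.ker l), F (h + h₀) := by
  classical
  rw [← Finset.sum_filter_add_sum_filter_not (hs H) (fun h => l h = 0) F]
  congr 1
  · refine Finset.sum_congr ?_ fun _ _ => rfl
    ext h
    rw [Finset.mem_filter, mem_hs, mem_hs, Submodule.mem_inf, LinearMap.mem_ker]
  · refine Finset.sum_nbij' (fun h => h + -h₀) (fun h => h + h₀) ?_ ?_ ?_ ?_ ?_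
    · intro h hh'
      rw [Finset.mem_filter, mem_hs] at hh'
      rw [mem_hs, Submodule.mem_inf, LinearMap.mem_ker]
      refine ⟨H.add_mem hh'.1 (H.neg_mem hh), ?_⟩
      rw [map_add, map_neg, hl]
      rcases zc (l h) with h1 | h1
      · exact absurd h1 hh'.2
      · rw [h1]; decide
    · intro h hh'
      rw [mem_hs, Submodule.mem_inf, LinearMap.mem_ker] at hh'
      rw [Finset.mem_filter, mem_hs]
      refine ⟨H.add_mem hh'.1 hh, ?_⟩
      rw [map_add, hl, hh'.2]; decide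
    · intro h _
      simp
    · intro h _
      simp
    · intro h _
      simp

theorem card_split (H : Submodule (ZMod 2) G) (l : Module.Dual (ZMod 2) G) (h₀ : G) (hh : h₀ ∈ H)
    (hl : l h₀ = 1) : (hs H).card = 2 * (hs (H ⊓ LinearMap.ker l)).card := by
  have h1 := split_sum H l h₀ hh hl (fun _ => 1)
  simp only [Finset.sum_const, nsmul_eq_mul, mul_one] at h1
  have h2 : ((hs H).card : ℂ) = ((2 * (hs (H ⊓ LinearMap.ker l)).card : ℕ) : ℂ) := by
    rw [h1]; push_cast; ring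
  exact_mod_cast h2

theorem expect_split (H : Submodule (ZMod 2) G) (l : Module.Dual (ZMod 2) G) (h₀ : G)
    (hh : h₀ ∈ H) (hl : l h₀ = 1) (F : G → ℂ) :
    𝔼 h ∈ hs H, F h = (𝔼 h ∈ hs (H ⊓ LinearMap.ker l), F h +
      𝔼 h ∈ hs (H ⊓ LinearMap.ker l), F (h + h₀)) / 2 := by
  have hpos : ((hs (H ⊓ LinearMap.ker l)).card : ℂ) ≠ 0 := by
    have : 0 < (hs (H ⊓ LinearMap.ker l)).card :=
      Finset.card_pos.mpr ⟨0, (mem_hs _ _).mpr (Submodule.zero_mem _)⟩
    exact_mod_cast this.ne'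
  rw [Finset.expect_eq_sum_div_card, Finset.expect_eq_sum_div_card,
    Finset.expect_eq_sum_div_card, split_sum H l h₀ hh hl, card_split H l h₀ hh hl]
  push_cast
  field_simp

end

theorem inc : T_INC := by
  intro G _ _ _ _ H l hex
  obtain ⟨h₀, hh, hl0⟩ := hex
  have hl : l h₀ = 1 := by
    rcases zc (l h₀) with h | h
    · exact absurd h hl0
    · exact h
  refine ⟨card_split H l h₀ hh hl, fun φ => ?_⟩
  set K := H ⊓ LinearMap.ker l with hK
  set A : G → ℂ := fun x => 𝔼 h ∈ hs K, φ (x + h) with hA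
  have h1 : ∀ x, 𝔼 h ∈ hs H, φ (x + h) = (A x + A (x + h₀)) / 2 := by
    intro x
    rw [expect_split H l h₀ hh hl (fun h => φ (x + h))]
    simp only [hA]
    congr 2
    refine Finset.expect_congr rfl fun h _ => ?_
    congr 1
    abel
  have h2 : ∀ x, 𝔼 h ∈ hs H, φ (x + h) * sg (l h) = (A x - A (x + h₀)) / 2 := by
    intro x
    rw [expect_split H l h₀ hh hl (fun h => φ (x + h) * sg (l h))]
    have e1 : 𝔼 h ∈ hs K, φ (x + h) * sg (l h) = A x := by
      refine Finset.expect_congr rfl fun h hh' => ?_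
      rw [mem_hs, hK, Submodule.mem_inf, LinearMap.mem_ker] at hh'
      rw [hh'.2]; simp [sg]
    have e2 : 𝔼 h ∈ hs K, φ (x + (h + h₀)) * sg (l (h + h₀)) = - A (x + h₀) := by
      simp only [hA]
      rw [← Finset.expect_neg_distrib]
      refine Finset.expect_congr rfl fun h hh' => ?_
      rw [mem_hs, hK, Submodule.mem_inf, LinearMap.mem_ker] at hh'
      rw [map_add, hh'.2, hl, zero_add]
      have : x + (h + h₀) = x + h₀ + h := by abel
      rw [this]; simp [sg]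
    rw [e1, e2]; ring
  have h3 : ∀ x, ‖A x‖ ^ 2 + ‖A (x + h₀)‖ ^ 2 = 2 * (‖𝔼 h ∈ hs H, φ (x + h)‖ ^ 2 +
      ‖𝔼 h ∈ hs H, φ (x + h) * sg (l h)‖ ^ 2) := by
    intro x
    rw [h1, h2, norm_div, norm_div, div_pow, div_pow]
    have h4 := parallelogram_law_with_norm ℝ (A x) (A (x + h₀))
    have h5 : ‖(2:ℂ)‖ = 2 := by simp
    rw [h5]
    have h6 : ‖A x + A (x + h₀)‖ ^ 2 + ‖A x - A (x + h₀)‖ ^ 2 =
        2 * (‖A x‖ ^ 2 + ‖A (x + h₀)‖ ^ 2) := by
      nlinarith [h4]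
    linarith
  have h4 : 𝔼 x, ‖A (x + h₀)‖ ^ 2 = 𝔼 x, ‖A x‖ ^ 2 :=
    Fintype.expect_equiv (Equiv.addRight h₀) _ _ (fun x => rfl)
  have h5 : 𝔼 x, ‖A x‖ ^ 2 + 𝔼 x, ‖A (x + h₀)‖ ^ 2 =
      2 * (𝔼 x, ‖𝔼 h ∈ hs H, φ (x + h)‖ ^ 2 +
        𝔼 x, ‖𝔼 h ∈ hs H, φ (x + h) * sg (l h)‖ ^ 2) := by
    rw [← Finset.expect_add_distrib, ← Finset.expect_add_distrib, Finset.mul_expect]
    exact Finset.expect_congr rfl fun x _ => h3 x
  rw [h4] at h5
  simp only [En, Fc]
  change 𝔼 x, ‖A x‖ ^ 2 = _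
  linarith

end Pool.Agent.H62.SQ1
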