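import Pool.Agent.H45.SQ.Targets1

namespace Pool.Agent.H62.SQ1

open Finset Pool.Agent.H45.SQ
open scoped BigOperators

theorem pig : T_PIG := by
  intro G κ _ _ _ _ _ S p col hp hS hκ
  by_contra hcon
  push Not at hcon
  have hN : (0:ℝ) < Fintype.card G := by exact_mod_cast Fintype.card_pos
  have hk : (0:ℝ) < Fintype.card κ := by exact_mod_cast hκ
  set N : ℝ := (Fintype.card G : ℝ) with hNdef
  -- degrees
  set dg : G → ℝ := fun s => ∑ t : G, if (s, t) ∈ S then 1 else 0 with hdg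
  have hScard : (S.card : ℝ) = ∑ s : G, dg s := by
    have h1 : (S.card : ℝ) = ∑ z : G × G, if z ∈ S then (1:ℝ) else 0 := by
      rw [Finset.sum_ite_mem, Finset.univ_inter, Finset.sum_const, nsmul_eq_mul, mul_one]
    rw [h1, Fintype.sum_prod_type]
  have hcs : (∑ s : G, dg s) ^ 2 ≤ N * ∑ s : G, dg s ^ 2 := by
    have := sq_sum_le_card_mul_sum_sq (s := (Finset.univ : Finset G)) (f := dg)
    rwa [Finset.card_univ] at this
  have hcount : ∑ t₀ : G, ∑ k : κ,
      ((S.filter fun z => (z.1, t₀) ∈ S ∧ col (z.1, t₀) = k).card : ℝ) = ∑ s : G, dg s ^ 2 := by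
    have h1 : ∀ (t₀ : G) (k : κ),
        ((S.filter fun z => (z.1, t₀) ∈ S ∧ col (z.1, t₀) = k).card : ℝ) =
        ∑ s : G, ∑ t : G, (if (s, t) ∈ S then (1:ℝ) else 0) * (if (s, t₀) ∈ S then 1 else 0) *
          (if col (s, t₀) = k then 1 else 0) := by
      intro t₀ k
      rw [Finset.card_filter]
      push_cast
      have h2 : ∑ z ∈ S, (if (z.1, t₀) ∈ S ∧ col (z.1, t₀) = k then (1:ℝ) else 0) =
          ∑ z : G × G, (if z ∈ S then (if (z.1, t₀) ∈ S ∧ col (z.1, t₀) = k then (1:ℝ) else 0)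
            else 0) := by
        rw [Finset.sum_ite_mem, Finset.univ_inter]
      rw [h2, Fintype.sum_prod_type]
      refine Finset.sum_congr rfl fun s _ => Finset.sum_congr rfl fun t _ => ?_
      by_cases a : (s, t) ∈ S <;> by_cases b : (s, t₀) ∈ S <;> by_cases c : col (s, t₀) = k <;>
        simp [a, b, c]
    simp_rw [h1]
    have h3 : ∀ t₀ : G, ∑ k : κ, ∑ s : G, ∑ t : G, (if (s, t) ∈ S then (1:ℝ) else 0) *
        (if (s, t₀) ∈ S then 1 else 0) * (if col (s, t₀) = k then 1 else 0) =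
        ∑ s : G, ∑ t : G, (if (s, t) ∈ S then (1:ℝ) else 0) * (if (s, t₀) ∈ S then 1 else 0) := by
      intro t₀
      rw [Finset.sum_comm]
      refine Finset.sum_congr rfl fun s _ => ?_
      rw [Finset.sum_comm]
      refine Finset.sum_congr rfl fun t _ => ?_
      rw [← Finset.mul_sum, Finset.sum_ite_eq Finset.univ (col (s, t₀)),
        if_pos (Finset.mem_univ _), mul_one]
    simp_rw [h3]
    rw [Finset.sum_comm]
    refine Finset.sum_congr rfl fun s _ => ?_
    rw [Finset.sum_comm, sq, hdg]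
    simp only
    rw [Finset.sum_mul_sum]
  have hlt : ∑ t₀ : G, ∑ k : κ,
      ((S.filter fun z => (z.1, t₀) ∈ S ∧ col (z.1, t₀) = k).card : ℝ) <
      ∑ _t₀ : G, ∑ _k : κ, p ^ 2 / (Fintype.card κ : ℝ) * N ^ 2 := by
    haveI : Nonempty κ := Fintype.card_pos_iff.mp hκ
    refine Finset.sum_lt_sum_of_nonempty Finset.univ_nonempty fun t₀ _ => ?_
    exact Finset.sum_lt_sum_of_nonempty Finset.univ_nonempty fun k _ => hcon t₀ k
  have hrhs : ∑ _t₀ : G, ∑ _k : κ, p ^ 2 / (Fintype.card κ : ℝ) * N ^ 2 = N * (p ^ 2 * N ^ 2) := by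
    rw [Finset.sum_const, Finset.sum_const, Finset.card_univ, Finset.card_univ, nsmul_eq_mul,
      nsmul_eq_mul, ← hNdef]
    field_simp
  rw [hcount, hrhs] at hlt
  have h4 : (p * N ^ 2) ^ 2 ≤ (∑ s : G, dg s) ^ 2 := by
    rw [← hScard]
    exact pow_le_pow_left₀ (by positivity) hS 2
  nlinarith [mul_lt_mul_of_pos_left hlt hN]

end Pool.Agent.H62.SQ1
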